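import Pool.Agent.MP_3ad207_lc.H46.Spec

/-! Ramsey, transversals of several anticomplete families, diagonal selection. -/

set_option autoImplicit false

namespace Pool.Agent.Ehf

/-- the finite Ramsey theorem for graphs, with the binomial bound -/
theorem ramsey {ι : Type*} (r : ι → ι → Prop) (hr : ∀ x y, r x y → r y x) (a b : ℕ)
    (s : Finset ι) (h : (a + b).choose a ≤ s.card) :
    (∃ t ⊆ s, t.card = a ∧ ∀ i ∈ t, ∀ j ∈ t, i ≠ j → r i j) ∨
    (∃ t ⊆ s, t.card = b ∧ ∀ i ∈ t, ∀ j ∈ t, i ≠ j → ¬ r i j) := by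
  classical
  induction a generalizing b s with
  | zero => exact Or.inl ⟨∅, Finset.empty_subset _, rfl, by simp⟩
  | succ a iha =>
    induction b generalizing s with
    | zero => exact Or.inr ⟨∅, Finset.empty_subset _, rfl, by simp⟩
    | succ b ihb =>
      have e1 : (a + 1 + (b + 1)).choose (a + 1)
          = (a + (b + 1)).choose a + (a + 1 + b).choose (a + 1) := by
        have : a + 1 + (b + 1) = (a + (b + 1)) + 1 := by ring
        rw [this, Nat.choose_succ_succ]
        congr 2
        ring
      have p1 : 0 < (a + (b + 1)).choose a := Nat.choose_pos (Nat.le_add_right _ _)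
      have hne : s.Nonempty := by
        rw [← Finset.card_pos]
        omega
      obtain ⟨v, hv⟩ := hne
      have hsplit := Finset.card_filter_add_card_filter_not (s := s.erase v) (fun x => r v x)
      rw [Finset.card_erase_of_mem hv] at hsplit
      by_cases hc : (a + (b + 1)).choose a ≤ ((s.erase v).filter fun x => r v x).card
      · rcases iha (b + 1) _ hc with ⟨t, ht, hcard, hp⟩ | ⟨t, ht, hcard, hp⟩
        · left
          have hvt : v ∉ t := fun hvt => by
            have := (Finset.mem_filter.1 (ht hvt)).1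
            simp at this
          refine ⟨insert v t, ?_, by rw [Finset.card_insert_of_notMem hvt, hcard], ?_⟩
          · intro x hx
            rcases Finset.mem_insert.1 hx with rfl | hx
            · exact hv
            · exact Finset.mem_of_mem_erase (Finset.mem_filter.1 (ht hx)).1
          · intro i hi j hj hij
            rcases Finset.mem_insert.1 hi with rfl | hi'
            · rcases Finset.mem_insert.1 hj with rfl | hj'
              · exact (hij rfl).elim
              · exact (Finset.mem_filter.1 (ht hj')).2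
            · rcases Finset.mem_insert.1 hj with rfl | hj'
              · exact hr _ _ (Finset.mem_filter.1 (ht hi')).2
              · exact hp i hi' j hj' hij
        · right
          exact ⟨t, ht.trans ((Finset.filter_subset _ _).trans (Finset.erase_subset _ _)),
            hcard, hp⟩
      · have hc' : (a + 1 + b).choose (a + 1) ≤ ((s.erase v).filter fun x => ¬ r v x).card := by
          omega
        rcases ihb _ hc' with ⟨t, ht, hcard, hp⟩ | ⟨t, ht, hcard, hp⟩
        · left
          exact ⟨t, ht.trans ((Finset.filter_subset _ _).trans (Finset.erase_subset _ _)),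
            hcard, hp⟩
        · right
          have hvt : v ∉ t := fun hvt => by
            have := (Finset.mem_filter.1 (ht hvt)).1
            simp at this
          refine ⟨insert v t, ?_, by rw [Finset.card_insert_of_notMem hvt, hcard], ?_⟩
          · intro x hx
            rcases Finset.mem_insert.1 hx with rfl | hx
            · exact hv
            · exact Finset.mem_of_mem_erase (Finset.mem_filter.1 (ht hx)).1
          · intro i hi j hj hij
            rcases Finset.mem_insert.1 hi with rfl | hi'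
            · rcases Finset.mem_insert.1 hj with rfl | hj'
              · exact (hij rfl).elim
              · exact (Finset.mem_filter.1 (ht hj')).2
            · rcases Finset.mem_insert.1 hj with rfl | hj'
              · exact fun e => (Finset.mem_filter.1 (ht hi')).2 (hr _ _ e)
              · exact hp i hi' j hj' hij

/-- the same with strict implicit arguments in the symmetry hypothesis -/
theorem ramsey' {ι : Type*} (r : ι → ι → Prop) (hr : ∀ ⦃x y⦄, r x y → r y x) (a b : ℕ)
    (s : Finset ι) (h : (a + b).choose a ≤ s.card) :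
    (∃ t ⊆ s, t.card = a ∧ ∀ i ∈ t, ∀ j ∈ t, i ≠ j → r i j) ∨
    (∃ t ⊆ s, t.card = b ∧ ∀ i ∈ t, ∀ j ∈ t, i ≠ j → ¬ r i j) :=
  ramsey r (fun _ _ e => hr e) a b s h

open Classical in
/-- (TR1) at most `17 * C(|A|,3)` members of `B` touch three or more members of `A` -/
theorem tr1_card (h : K3Stmt) {V : Type} [Finite V] {G : SimpleGraph V} (hG : EHF G)
    {κ : Type*} {ι : Type} {A : Finset κ} {E : κ → Set V} {B : Finset ι} {F : ι → Set V}
    (hA : AFam G A E) (hB : AFam G B F) :
    (B.filter fun i => 3 ≤ (A.filter fun a => Touch G (F i) (E a)).card).card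
      ≤ 17 * A.card.choose 3 := by
  have hsub : (B.filter fun i => 3 ≤ (A.filter fun a => Touch G (F i) (E a)).card) ⊆
      (A.powersetCard 3).biUnion fun t => B.filter fun i => ∀ a ∈ t, Touch G (F i) (E a) := by
    intro i hi
    obtain ⟨hiB, h3⟩ := Finset.mem_filter.1 hi
    obtain ⟨t, ht, hc⟩ := Finset.exists_subset_card_eq h3
    refine Finset.mem_biUnion.2 ⟨t, Finset.mem_powersetCard.2
      ⟨ht.trans (Finset.filter_subset _ _), hc⟩, Finset.mem_filter.2 ⟨hiB, fun a ha => ?_⟩⟩
    exact (Finset.mem_filter.1 (ht ha)).2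
  refine (Finset.card_le_card hsub).trans ?_
  refine (Finset.card_biUnion_le_card_mul _ _ 17 ?_).trans ?_
  · intro t ht
    obtain ⟨htA, hc⟩ := Finset.mem_powersetCard.1 ht
    obtain ⟨x, y, z, hxy, hxz, hyz, rfl⟩ := Finset.card_eq_three.1 hc
    have hx : x ∈ A := htA (by simp)
    have hy : y ∈ A := htA (by simp)
    have hz : z ∈ A := htA (by simp)
    refine h V G hG (E x) (E y) (E z) (hA.1 x hx) (hA.1 y hy) (hA.1 z hz) (hA.2 x hx y hy hxy)
      (hA.2 x hx z hz hxz) (hA.2 y hy z hz hyz) ι _ F (hB.mono (Finset.filter_subset _ _)) ?_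
    intro i hi
    have := (Finset.mem_filter.1 hi).2
    exact ⟨this x (by simp), this y (by simp), this z (by simp)⟩
  · rw [Finset.card_powersetCard, mul_comm]

open Classical in
/-- (TR1) all but `17 * C(|A|,3)` members of `B` touch at most two members of `A` -/
theorem tr1 (h : K3Stmt) {V : Type} [Finite V] {G : SimpleGraph V} (hG : EHF G)
    {κ : Type*} {ι : Type} {A : Finset κ} {E : κ → Set V} {B : Finset ι} {F : ι → Set V}
    (hA : AFam G A E) (hB : AFam G B F) :
    ∃ B' ⊆ B, B.card ≤ B'.card + 17 * A.card.choose 3 ∧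
      ∀ i ∈ B', (A.filter fun a => Touch G (F i) (E a)).card ≤ 2 := by
  refine ⟨B.filter fun i => ¬ 3 ≤ (A.filter fun a => Touch G (F i) (E a)).card,
    Finset.filter_subset _ _, ?_, ?_⟩
  · have h1 := tr1_card h hG hA hB
    have h2 := Finset.card_filter_add_card_filter_not (s := B)
      (fun i => 3 ≤ (A.filter fun a => Touch G (F i) (E a)).card)
    omega
  · intro i hi
    have := (Finset.mem_filter.1 hi).2
    omega

/-- the bound of the transversal lemma -/
def trL : ℕ → ℕ
  | 0 => 0
  | t + 1 => trL t + 17 * (2 * t + 1).choose 3 + (2 * t + 1)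

theorem trL_pos {t : ℕ} (ht : 0 < t) : 0 < trL t := by
  cases t with
  | zero => omega
  | succ t => simp only [trL]; omega

theorem trL_mono : Monotone trL :=
  monotone_nat_of_le_succ fun t => by simp only [trL]; omega

/-- (TR) with the explicit bound -/
theorem tr_main (h : K3Stmt) {V : Type} [Finite V] {G : SimpleGraph V} (hG : EHF G)
    {κ : Type*} {ι : Type} [Nonempty ι] (K : Finset κ) (T : κ → Finset ι) (F : κ → ι → Set V)
    (hK : ∀ k ∈ K, AFam G (T k) (F k) ∧ trL K.card ≤ (T k).card) :
    ∃ c : κ → ι, (∀ k ∈ K, c k ∈ T k) ∧ AFam G K fun k => F k (c k) := by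
  classical
  induction K using Finset.induction_on generalizing T with
  | empty => exact ⟨fun _ => Classical.arbitrary ι, by simp, by simp [AFam]⟩
  | insert a K ha ih =>
    rw [Finset.card_insert_of_notMem ha] at hK
    simp only [trL] at hK
    obtain ⟨hFa, hTa⟩ := hK a (Finset.mem_insert_self _ _)
    obtain ⟨A, hAT, hAc⟩ := Finset.exists_subset_card_eq (s := T a) (n := 2 * K.card + 1)
      (by omega)
    have hA : AFam G A (F a) := hFa.mono hAT
    have hex : ∀ k ∈ K, ∃ B' ⊆ T k, (T k).card ≤ B'.card + 17 * A.card.choose 3 ∧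
        ∀ i ∈ B', (A.filter fun x => Touch G (F k i) (F a x)).card ≤ 2 := fun k hk =>
      tr1 h hG hA (hK k (Finset.mem_insert_of_mem hk)).1
    choose! T' hT' using hex
    obtain ⟨c, hc, hcF⟩ := ih T' fun k hk => by
      obtain ⟨h1, h2⟩ := hK k (Finset.mem_insert_of_mem hk)
      obtain ⟨h3, h4, -⟩ := hT' k hk
      refine ⟨h1.mono h3, ?_⟩
      rw [hAc] at h4
      omega
    have hbad : (K.biUnion fun k => A.filter fun x => Touch G (F k (c k)) (F a x)).card
        ≤ K.card * 2 :=
      Finset.card_biUnion_le_card_mul _ _ 2 fun k hk => (hT' k hk).2.2 _ (hc k hk)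
    obtain ⟨x, hxA, hx⟩ := Finset.exists_mem_notMem_of_card_lt_card
      (s := K.biUnion fun k => A.filter fun x => Touch G (F k (c k)) (F a x)) (t := A) (by omega)
    have hanti : ∀ k ∈ K, Anti G (F k (c k)) (F a x) := fun k hk => by
      rw [← not_touch]
      exact fun ht => hx (Finset.mem_biUnion.2 ⟨k, hk, Finset.mem_filter.2 ⟨hxA, ht⟩⟩)
    have hup : ∀ k ∈ K, Function.update c a x k = c k := fun k hk =>
      Function.update_of_ne (fun e : k = a => ha (e ▸ hk)) _ _
    refine ⟨Function.update c a x, ?_, ?_, ?_⟩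
    · intro k hk
      rcases Finset.mem_insert.1 hk with rfl | hk'
      · rw [Function.update_self]
        exact hAT hxA
      · rw [hup k hk']
        exact (hT' k hk').1 (hc k hk')
    · intro k hk
      rcases Finset.mem_insert.1 hk with rfl | hk'
      · simp only [Function.update_self]
        exact hA.1 x hxA
      · simp only [hup k hk']
        exact hcF.1 k hk'
    · intro k hk l hl hkl
      rcases Finset.mem_insert.1 hk with rfl | hk'
      · rcases Finset.mem_insert.1 hl with rfl | hl'
        · exact (hkl rfl).elim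
        · simp only [Function.update_self, hup l hl']
          exact (hanti l hl').symm
      · rcases Finset.mem_insert.1 hl with rfl | hl'
        · simp only [Function.update_self, hup k hk']
          exact hanti k hk'
        · simp only [hup k hk', hup l hl']
          exact hcF.2 k hk' l hl' hkl

/-- transversal of several anticomplete families, over a nonempty index type -/
def TRStmt1 : Prop :=
  ∃ L : ℕ → ℕ, ∀ (V : Type) [Finite V] (G : SimpleGraph V), EHF G →
    ∀ (κ ι : Type) [Nonempty ι] (K : Finset κ) (T : κ → Finset ι) (F : κ → ι → Set V),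
      (∀ k ∈ K, AFam G (T k) (F k) ∧ L K.card ≤ (T k).card) →
      ∃ c : κ → ι, (∀ k ∈ K, c k ∈ T k) ∧ AFam G K fun k => F k (c k)

theorem trStmt1 (h : K3Stmt) : TRStmt1 :=
  ⟨trL, fun _ _ _ hG _ _ _ K T F hK => tr_main h hG K T F hK⟩

/-- (TR) for a nonempty set of families, no assumption on the index type -/
theorem tr_of_nonempty (h : K3Stmt) {V : Type} [Finite V] {G : SimpleGraph V} (hG : EHF G)
    {κ : Type*} {ι : Type} (K : Finset κ) (hne : K.Nonempty) (T : κ → Finset ι)
    (F : κ → ι → Set V) (hK : ∀ k ∈ K, AFam G (T k) (F k) ∧ trL K.card ≤ (T k).card) :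
    ∃ c : κ → ι, (∀ k ∈ K, c k ∈ T k) ∧ AFam G K fun k => F k (c k) := by
  have hp := trL_pos (Finset.card_pos.2 hne)
  obtain ⟨k, hk⟩ := hne
  obtain ⟨x, -⟩ : (T k).Nonempty := Finset.card_pos.1 (lt_of_lt_of_le hp (hK k hk).2)
  have : Nonempty ι := ⟨x⟩
  exact tr_main h hG K T F hK

/-- no 21 ordered indices with every earlier `E` touching every later `F` -/
theorem no_ordered (h : K3Stmt) {V : Type} [Finite V] {G : SimpleGraph V} (hG : EHF G)
    {ι : Type} [LinearOrder ι] {t : Finset ι} {E F : ι → Set V} (hE : AFam G t E)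
    (hF : AFam G t F) (hc : t.card = 21)
    (hT : ∀ i ∈ t, ∀ j ∈ t, i < j → Touch G (E i) (F j)) : False := by
  classical
  obtain ⟨x, hx, hxm⟩ := Finset.exists_min_image t id (Finset.card_pos.1 (by omega))
  have c1 : (t.erase x).card = 20 := by rw [Finset.card_erase_of_mem hx, hc]
  obtain ⟨y, hy, hym⟩ := Finset.exists_min_image (t.erase x) id (Finset.card_pos.1 (by omega))
  have c2 : ((t.erase x).erase y).card = 19 := by rw [Finset.card_erase_of_mem hy, c1]
  obtain ⟨z, hz, hzm⟩ := Finset.exists_min_image ((t.erase x).erase y) id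
    (Finset.card_pos.1 (by omega))
  have c3 : (((t.erase x).erase y).erase z).card = 18 := by rw [Finset.card_erase_of_mem hz, c2]
  simp only [id] at hxm hym hzm
  obtain ⟨hyx, hyt⟩ := Finset.mem_erase.1 hy
  obtain ⟨hzy, hz'⟩ := Finset.mem_erase.1 hz
  obtain ⟨hzx, hzt⟩ := Finset.mem_erase.1 hz'
  have hsub : ((t.erase x).erase y).erase z ⊆ t :=
    (Finset.erase_subset _ _).trans ((Finset.erase_subset _ _).trans (Finset.erase_subset _ _))
  have := h V G hG (E x) (E y) (E z) (hE.1 x hx) (hE.1 y hyt) (hE.1 z hzt)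
    (hE.2 x hx y hyt hyx.symm) (hE.2 x hx z hzt hzx.symm) (hE.2 y hyt z hzt hzy.symm) ι _ F
    (hF.mono hsub) fun j hj => by
      obtain ⟨hjz, hj2⟩ := Finset.mem_erase.1 hj
      obtain ⟨hjy, hj1⟩ := Finset.mem_erase.1 hj2
      obtain ⟨hjx, hjt⟩ := Finset.mem_erase.1 hj1
      exact ⟨(hT x hx j hjt (lt_of_le_of_ne (hxm j hjt) hjx.symm)).symm,
        (hT y hyt j hjt (lt_of_le_of_ne (hym j hj1) hjy.symm)).symm,
        (hT z hzt j hjt (lt_of_le_of_ne (hzm j hj2) hjz.symm)).symm⟩
  omega

/-- one Ramsey round of the diagonal lemma -/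
theorem diag_half (h : K3Stmt) {V : Type} [Finite V] {G : SimpleGraph V} (hG : EHF G)
    {ι : Type} [LinearOrder ι] {s : Finset ι} {E F : ι → Set V} (hE : AFam G s E)
    (hF : AFam G s F) {m : ℕ} (hm : (21 + m).choose 21 ≤ s.card) :
    ∃ s' ⊆ s, s'.card = m ∧ ∀ i ∈ s', ∀ j ∈ s', i < j → Anti G (E i) (F j) := by
  rcases ramsey (fun i j => (i < j ∧ Touch G (E i) (F j)) ∨ (j < i ∧ Touch G (E j) (F i)))
    (fun _ _ e => e.symm) 21 m s hm with ⟨t, ht, hc, hp⟩ | ⟨t, ht, hc, hp⟩
  · exfalso
    refine no_ordered h hG (hE.mono ht) (hF.mono ht) hc fun i hi j hj hij => ?_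
    rcases hp i hi j hj hij.ne with e | e
    · exact e.2
    · exact (lt_asymm hij e.1).elim
  · refine ⟨t, ht, hc, fun i hi j hj hij => ?_⟩
    rw [← not_touch]
    exact fun e => hp i hi j hj hij.ne (Or.inl ⟨hij, e⟩)

/-- the bound of the diagonal lemma -/
def diagN (t : ℕ) : ℕ := (21 + (21 + t).choose 21).choose 21

/-- (DIAG) with the explicit bound -/
theorem diag_main (h : K3Stmt) {V : Type} [Finite V] {G : SimpleGraph V} (hG : EHF G)
    {ι : Type} {s : Finset ι} {E F : ι → Set V} {t : ℕ} (hE : AFam G s E) (hF : AFam G s F)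
    (hN : diagN t ≤ s.card) :
    ∃ s' ⊆ s, s'.card = t ∧ ∀ i ∈ s', ∀ j ∈ s', i ≠ j → Anti G (E i) (F j) := by
  obtain ⟨_, -⟩ := exists_wellFoundedLT ι
  obtain ⟨s₁, hs₁, hc₁, h₁⟩ := diag_half h hG hE hF hN
  obtain ⟨s₂, hs₂, hc₂, h₂⟩ := diag_half h hG (hF.mono hs₁) (hE.mono hs₁) hc₁.ge
  refine ⟨s₂, hs₂.trans hs₁, hc₂, fun i hi j hj hij => ?_⟩
  rcases lt_or_gt_of_ne hij with e | e
  · exact h₁ i (hs₂ hi) j (hs₂ hj) e
  · exact (h₂ j hj i hi e).symm

theorem diagStmt (h : K3Stmt) : DiagStmt :=
  ⟨diagN, fun _ _ _ hG _ _ _ _ _ hE hF hN => diag_main h hG hE hF hN⟩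

end Pool.Agent.Ehf
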